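import Pool.Agent.Lib_helper88.NC.Defs

/-!
# PENM (MP_892e4c_nt, 0-1 law): the diagonal of the marginals (helper18)

`nuN p X q u j` = the weight of the base form `(g, n, g')` of the edge `j`, `g = Q(u_j)/d_j`,
`g' = Q(u_(j+1))/d_j`; weight `1` for `l ≤ P`, `s` for `P < l ≤ Y`, `1` for `l > Y`.
-/

set_option autoImplicit false

namespace Pool.Agent.PENM

open Finset Pool.Agent.PENT Pool.Agent.PATH.NC

/-- `s_0 = be_j + al_(j-1)` -/
noncomputable def wS0 (j : ℕ) : ℝ := beV 10 j + if j = 0 then 0 else alE 10 (j - 1)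

/-- `s_1 = be_(j+1) + al_(j+1)` -/
noncomputable def wS1 (j : ℕ) : ℝ := beV 10 (j + 1) + if j = 9 then 0 else alE 10 (j + 1)

/-- the weight of the prime `l` -/
noncomputable def ws (P Y s : ℝ) (l : ℕ) : ℝ :=
  if l = 2 then 1 else if (l : ℝ) ≤ P then 1 else if (l : ℝ) ≤ Y then s else 1

/-- the weight of the base form of the edge `j` -/
noncomputable def nuN (p : Prm 10) (X : ℕ) (q : ℤ × ℤ × ℤ) (u : Vec 10) (j : Fin 10) : ℝ :=
  cm (ws (PP X) (p.Y X) (wS0 j.val)) ((fv q (u j.castSucc)).natAbs / dE u (j.val + 1)) *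
    cm (ws (PP X) (p.Y X) (wS1 j.val)) ((fv q (u j.succ)).natAbs / dE u (j.val + 1))

/-- (DGN): the diagonal of the marginals. `W (W/ν)^η` is the weight with
`al_i^(1+η)`, `be_i^(1+η)` and, for `i = j - 1`, `j + 1`: `al_i^(1+η) s^(-η)` (edges next to `j`), `be_j^(1+η)
s_0^(-η)`, `be_(j+1)^(1+η) s_1^(-η)` (all `≤` the old weights); exponent `-6 - 6.348 η + O(η²)`
(and `(log P)^(6.35 η)`), for all `j`. -/
def DGN (p : Prm 10) (C1 : ℝ) : Prop := ∃ (C η : ℝ), 0 < η ∧ η ≤ 1 ∧ ∃ X₀ : ℕ, ∀ X ≥ X₀,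
  ∀ j : Fin 10, ∑ q ∈ AW C1 X, ∑ u ∈ GS p X, W p X q u * (W p X q u / nuN p X q u j) ^ η ≤
    C * X * Real.log X ^ (-mE 10 * (1 + η))

end Pool.Agent.PENM
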