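import Pool.Agent.Lib_helper18.PENM.DG
import Pool.Agent.Lib_helper18.PENK11.Defs
import Pool.Agent.Lib_helper96.PNI.Defs

/-!
# PENM (MP_892e4c_nt, 0-1 law): marginals of the paths, definitions of the link (helper18)

A path `u_0 = (1,0), ..., u_10 = (0,1)` of helper88's `NC/Defs` with a form `q` is turned into the closed
11-gon `rt j u` (base edge `j` becomes the edge `0`, open edge `mM j = 10 - j`), with the base form
`RB j q u`. `j = 10`: the base is the form itself, `RB 10 q u = (c, b, a)`.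
-/

set_option autoImplicit false

namespace Pool.Agent.PENM

open Finset Pool.Agent.PENT Pool.Agent.PATH.NC

/-- the path as a closed 11-gon; the base edge `j` becomes the edge `0` -/
def rt (j : Fin 11) (u : Vec 10) : PENK.PolyK 11 := fun i => u (i + j)

/-- the base form of the edge `j` -/
def RB (j : Fin 11) (q : ℤ × ℤ × ℤ) (u : Vec 10) : PENK.Bas :=
  (fv q (rt j u 0) / |PENK.dl (rt j u) 0|,
    bf q.1 q.2.1 q.2.2 (rt j u 0) (rt j u 1) / |PENK.dl (rt j u) 0|,
    fv q (rt j u 1) / |PENK.dl (rt j u) 0|)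

/-- the parameters of the pairs theorem: `|u_i| ∈ [1, X ^ (2 ep)]` -/
noncomputable def qM (p : Prm 10) (δ C1 : ℝ) (j : Fin 11) : PENK.Par 11 where
  e := fun _ => 0
  ε := 100 * p.ep
  δ := δ
  c3 := p.c1
  C4 := 1000 * C1 ^ 4 / p.c1
  σ := fun i l => if (i + j).val < (l + j).val then 1 else -1

/-- the open edge -/
def mM (j : Fin 11) : Fin 11 := 10 - j

/-- the weights -/
noncomputable def WM (j : Fin 11) : PENK.Wts 11 where
  al := fun i => if i + j = 10 then 0 else alE 10 (i + j).val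
  be := fun i => beV 10 (i + j).val
  bo := fun i => boV (i + j).val

/-- the weight of a base form -/
noncomputable def nuM (p : Prm 10) (X : ℕ) (j : Fin 11) (y : PENK.Bas) : ℝ :=
  cm (ws (PP X) (p.Y X) (WM j).s0) y.1.natAbs * cm (ws (PP X) (p.Y X) (WM j).s1) y.2.2.natAbs

/-- the pairs (form, path) of positive weight -/
structure TT (p : Prm 10) (C1 : ℝ) (X : ℕ) (s : (ℤ × ℤ × ℤ) × Vec 10) : Prop where
  aw : s.1 ∈ AW C1 X
  gp : GP p X s.2
  w : W p X s.1 s.2 ≠ 0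

open Classical in
/-- the family -/
noncomputable def FT (p : Prm 10) (C1 : ℝ) (X : ℕ) : Finset ((ℤ × ℤ × ℤ) × Vec 10) :=
  ((AW C1 X) ×ˢ (GS p X)).filter (fun s => W p X s.1 s.2 ≠ 0)

/-- the weight of a member -/
noncomputable def wT (p : Prm 10) (X : ℕ) (s : (ℤ × ℤ × ℤ) × Vec 10) : ℝ := W p X s.1 s.2

/-- the base of a member -/
def bT (j : Fin 11) (s : (ℤ × ℤ × ℤ) × Vec 10) : PENK.Bas := RB j s.1 s.2

open Classical in
/-- the members with `u_1` in the window `[X ^ a, X ^ (a + ew)]` and `u_9` in `[X ^ b, X ^ (b + ew)]` -/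
noncomputable def FW (p : Prm 10) (C1 : ℝ) (X : ℕ) (a b : ℝ) : Finset ((ℤ × ℤ × ℤ) × Vec 10) :=
  (FT p C1 X).filter (fun s => (X : ℝ) ^ a ≤ (nm (s.2 1) : ℝ) ∧
    (nm (s.2 1) : ℝ) ≤ (X : ℝ) ^ (a + p.ew) ∧ (X : ℝ) ^ b ≤ (nm (s.2 9) : ℝ) ∧
    (nm (s.2 9) : ℝ) ≤ (X : ℝ) ^ (b + p.ew))

/-- helper96's parameters: `u_1` in `[X ^ a, X ^ a']`, `u_9` in `[X ^ b, X ^ b']` -/
noncomputable def qN (p : Prm 10) (a a' b b' : ℝ) : PNI.Prm where
  lo := fun j => if j = 0 ∨ j = 10 then 0 else if j = 1 then a else if j = 9 then b else p.e j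
  hi := fun j => if j = 0 ∨ j = 10 then 0 else if j = 1 then a' else if j = 9 then b' else
    p.e j + p.ew
  ε := 50 * p.ew
  c3 := p.c1

open Classical in
/-- the sum over the pairs of members over one base in the class `r` -/
noncomputable def prs2 (p : Prm 10) (X : ℕ) (j : Fin 11) (s : Finset ((ℤ × ℤ × ℤ) × Vec 10))
    (r : (ℤ × ℤ × ℤ) × Vec 10 → (ℤ × ℤ × ℤ) × Vec 10 → Prop) : ℝ :=
  ∑ τ ∈ s, wT p X τ * cls s (wT p X) (bT j) (nuM p X j) r τ

/-- the common part of two members -/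
noncomputable def GM2 (j : Fin 11) (τ τ' : (ℤ × ℤ × ℤ) × Vec 10) : ℕ :=
  PENK.Gc (rt j τ.2) (rt j τ'.2)

end Pool.Agent.PENM
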